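import Mathlib
import Pool.Agent.Helper52.BP.All

set_option autoImplicit false

namespace Pool.Agent.Results.MP_de6334_lc.BoundedDimension

open Pool.Helper52.BP

/-- Oblivious branching programs (and programs which may read adaptively inside the windows `W i` of
`w` steps), if no `d + 1` windows are in general position. -/
theorem result : ∀ d r : ℕ, 2 ≤ r → ∃ c : ℝ, 0 < c ∧ ∀ (n V T w : ℕ) (B : BP n V)
    (W : ℕ → Finset (Fin n)), 64 ≤ n → Comp B T (f n) → 1 ≤ w → w ≤ T → Reads B T w W →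
    (∀ i, ((W i).card : ℝ) ≤ c * n) → ¬ Indep W (T / w + 1) (d + 1) →
    c * ((w : ℝ) * (n : ℝ) ^ ((1 - 1 / (r : ℝ)) / ((d : ℝ) + 1))) ≤ (T : ℝ) * Real.logb 2 V :=
  main_dim2

end Pool.Agent.Results.MP_de6334_lc.BoundedDimension
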