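import Mathlib
import Pool.Agent.Helper52.BP.All

set_option autoImplicit false

namespace Pool.Agent.Results.MP_de6334_lc.LocalReading

open Pool.Helper52.BP

/-- Branching programs with local reading: on every input, in every window of `w` steps, the
variables read are in one member of a family `F` of at most `n ^ (c log R)` sets of at most
`n / (8 R)` variables with `naF F` atoms.  Time times space times the number of atoms is at least
`c w n ^ (1 - 1 / r)`. -/
theorem result : ∀ r : ℕ, 2 ≤ r → ∃ c : ℝ, 0 < c ∧ ∀ (n V T w R : ℕ) (B : BP n V)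
    (F : Finset (Finset (Fin n))), 64 ≤ n → 2 ≤ R → Comp B T (f n) → 1 ≤ w → w ≤ T →
    ReadsA B T w F → (∀ X ∈ F, 8 * R * X.card ≤ n) →
    (F.card : ℝ) ≤ (n : ℝ) ^ (c * Real.logb 2 R) →
    c * ((w : ℝ) * (n : ℝ) ^ (1 - 1 / (r : ℝ))) ≤ (T : ℝ) * Real.logb 2 V * (naF F : ℝ) :=
  main_sets

end Pool.Agent.Results.MP_de6334_lc.LocalReading
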