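import Mathlib
import Pool.Agent.Helper52.PGE.Sys2

set_option autoImplicit false

namespace Pool.Agent.Results.MP_de6334_lc.FewPages

open Pool.Helper52.BP Pool.Agent.Helper52.PGE

/-- Branching programs that read in few pages: `F` is a family of sets (pages) of at most `P`
variables, each variable is in at most `d` pages, and on every input, in every window of `w` steps,
the variables read are in the union of at most `h` pages, `d h ≤ c log n`.  Time times space times
`(2 d h) ^ (2 d)` is at least `c w n ^ (1 - 1 / r)`. -/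
theorem result : ∀ r : ℕ, 2 ≤ r → ∃ c : ℝ, 0 < c ∧ ∀ (n V T w h d P : ℕ) (B : BP n V)
    (F : Finset (Finset (Fin n))), 64 ≤ n → Comp B T (f n) → 1 ≤ w → w ≤ T → 1 ≤ h → 1 ≤ d →
    1 ≤ P → ReadsU B T w h F → (∀ X ∈ F, X.card ≤ P) →
    (∀ v, (F.filter (fun X => v ∈ X)).card ≤ d) → (d : ℝ) * h ≤ c * Real.logb 2 n →
    4 * (2 * (d * h)) ^ (3 * d) * P ≤ n →
    c * ((w : ℝ) * (n : ℝ) ^ (1 - 1 / (r : ℝ))) ≤
      (T : ℝ) * Real.logb 2 V * (2 * ((d : ℝ) * h)) ^ (2 * d) :=
  main_degree

end Pool.Agent.Results.MP_de6334_lc.FewPages
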